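import Pool.Agent.Helper84.BT.Goals

/-!
# Project BT (MP_57df85_nt): PAR (packet 13372)
-/

set_option autoImplicit false

open Finset

namespace Pool.Agent.Helper39.BT.PAR

open Pool.Agent.Helper7.BM (sg)
open Pool.Agent.Helper84.BT

lemma sg_succ (x m : ℕ) : sg x (m + 1) = sg x m + x ^ (m + 1) := by
  unfold sg
  rw [Finset.sum_range_succ]

lemma odd_sg (x : ℕ) (hx : Odd x) : ∀ m : ℕ, Odd (sg x m) ↔ Even m
  | 0 => by simp [sg]
  | m + 1 => by
    rw [sg_succ, Nat.odd_add, odd_sg x hx m, Nat.even_add_one]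
    have h : ¬ Even (x ^ (m + 1)) := Nat.not_even_iff_odd.2 (hx.pow)
    constructor
    · intro h1 h2
      exact h (h1.1 h2)
    · intro h1
      exact ⟨fun h2 => absurd h2 h1, fun h2 => absurd h2 h⟩

lemma mul_sg (x m : ℕ) : ((x : ℤ) - 1) * (sg x m : ℤ) = (x : ℤ) ^ (m + 1) - 1 := by
  unfold sg
  push_cast
  exact mul_geom_sum _ _

theorem t : S_PAR := by
  intro hEVN p q a b hp hq hpq ha hb hab
  have hp2 := hp.two_le
  have hqodd : Odd q := hq.odd_of_ne_two (by omega)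
  refine ⟨by rw [hab]; exact odd_sg q hqodd b, fun hbe => ?_⟩
  have hN : Odd (sg p a) := by rw [hab]; exact (odd_sg q hqodd b).2 hbe
  have hae : Even a := by
    rcases hp.eq_two_or_odd' with h2 | hodd
    · subst h2
      by_contra hne
      obtain ⟨t, rfl⟩ := hbe
      obtain ⟨s, hs⟩ := (Nat.not_even_iff_odd.1 hne).add_one
      have h1 := mul_sg 2 a
      have h3 := mul_sg q (t + t)
      have h4 : ((sg 2 a : ℕ) : ℤ) = ((sg q (t + t) : ℕ) : ℤ) := by rw [hab]
      rw [← h4] at h3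
      have h5 : ((sg 2 a : ℕ) : ℤ) = 2 ^ (a + 1) - 1 := by
        push_cast at h1
        linarith
      rw [h5, hs] at h3
      refine hEVN q (2 ^ s) (q ^ t) (by exact_mod_cast (by omega : 3 ≤ q)) ?_
      have e1 : ((2 : ℤ) ^ s) ^ 2 = 2 ^ (s + s) := by rw [← pow_mul, mul_two]
      have e2 : (q : ℤ) * ((q : ℤ) ^ t) ^ 2 = (q : ℤ) ^ (t + t + 1) := by
        rw [← pow_mul, mul_two, pow_succ']
      rw [e1, e2]
      linear_combination h3
    · exact (odd_sg p hodd a).1 hN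
  obtain ⟨s, rfl⟩ := hae
  obtain ⟨t, rfl⟩ := hbe
  exact ⟨s, t, by omega, by omega, by ring, by ring⟩

end Pool.Agent.Helper39.BT.PAR
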