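import Pool.Agent.Helper61.BT.Goals
import Pool.Agent.Helper39.VF.TOF

/-!
# Project BT, packet TFB: the torso is a setting
-/

set_option autoImplicit false

namespace Pool.Agent.Helper39.BT

open Pool.Agent.Helper27.VF Pool.Agent.Helper61.BT Pool.Agent.Helper39.VF

universe u

theorem tfb (hTab : TabStmt.{u}) (hTob : TobStmt.{u}) (hTcb : TcbStmt.{u}) (hTod : TodStmt.{u})
    (hToe : ToeStmt.{u}) : TfbStmt.{u} := by
  intro A W _ _ G G₀ w p h k hk
  obtain ⟨hinv, F, hF, hFK, hcov⟩ := hTab A W G G₀ w p h k hk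
  obtain ⟨hw, hKp⟩ := hTob A W G G₀ w p h k hk
  have hnar := hTcb A W G G₀ w p h k hk
  obtain ⟨hle, hconn, hlf⟩ := hTod W G G₀ (Kp A G p k) h.le hnar h.conn ⟨w, hw⟩ h.lf
  have hcut := hToe W G (Kp A G p k) hnar
  have hout : ∀ g ∈ BB A G p k, ∀ x, x ∉ Kp A G p k → g • x ∉ Kp A G p k := by
    intro g hg x hx hgx
    apply hx
    have := hinv g⁻¹ ((BB A G p k).inv_mem hg) _ hgx
    rwa [inv_smul_smul] at this
  letI act : MulAction (BB A G p k) (Kp A G p k) :=
    { smul := fun b x => ⟨(b : A) • (x : W), hinv b b.2 x x.2⟩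
      one_smul := fun x => Subtype.ext (one_smul A (x : W))
      mul_smul := fun b c x => Subtype.ext (mul_smul (b : A) (c : A) (x : W)) }
  have hsm : ∀ (b : BB A G p k) (x : Kp A G p k), ((b • x : Kp A G p k) : W) = (b : A) • (x : W) :=
    fun _ _ => rfl
  have hrange : Set.range (Subtype.val : Kp A G p k → W) ∈ p := by
    rw [Subtype.range_val]
    exact hKp
  have hadj : ∀ (H : SimpleGraph W), (∀ (a : A) (x y : W), H.Adj x y → H.Adj (a • x) (a • y)) →
      ∀ (b : BB A G p k) (x y : Kp A G p k), (TG H (Kp A G p k)).Adj x y →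
        (TG H (Kp A G p k)).Adj (b • x) (b • y) := by
    intro H hH b x y hxy
    rw [tg_adj] at hxy ⊢
    obtain ⟨hne, hr⟩ := hxy
    refine ⟨fun he => hne ?_, ?_⟩
    · have := congrArg (fun t => b⁻¹ • t) he
      simpa using this
    · rcases hr with ⟨z, h1, h2⟩ | ⟨z, h1, h2⟩
      · exact Or.inl ⟨(b : A) • z, out_smul (b : A) (hH b) (hout b b.2) h1, hH b _ _ h2⟩
      · exact Or.inr ⟨(b : A) • z, out_smul (b : A) (hH b) (hout b b.2) h1, hH b _ _ h2⟩
  refine ⟨Kp A G p k, act, TG G (Kp A G p k), TG G₀ (Kp A G p k), ⟨w, hw⟩,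
    p.comap Subtype.val_injective hrange, ?_, ?_⟩
  · refine
      { free := ?_, fin := ?_, le := hle, inv := hadj G h.inv, inv₀ := hadj G₀ h.inv₀, conn := hconn
        lf := hlf, nonp := ?_, nb := ?_ }
    · intro b x hbx
      have h1 : (b : A) • (x : W) = x := congrArg Subtype.val hbx
      exact Subtype.ext (h.free _ _ h1)
    · refine ⟨Subtype.val ⁻¹' F, hF.preimage Subtype.val_injective.injOn, ?_⟩
      intro x
      obtain ⟨g, hg, f, hf, hgf⟩ := hcov x x.2
      exact ⟨⟨g, hg⟩, ⟨f, hFK hf⟩, hf, Subtype.ext hgf⟩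
    · intro F' hF' hmem
      rw [Ultrafilter.mem_comap] at hmem
      exact h.nonp _ (hF'.image _) hmem
    · rw [Ultrafilter.mem_comap]
      refine Filter.mem_of_superset (Filter.inter_mem h.nb hKp) ?_
      rintro x ⟨hx1, hx2⟩
      refine ⟨⟨x, hx2⟩, ?_, rfl⟩
      change (TG G (Kp A G p k)).Adj _ _
      rw [tg_adj]
      refine ⟨fun he => G.ne_of_adj hx1 (congrArg Subtype.val he), Or.inl ⟨w, ?_, hx1⟩⟩
      exact Relation.ReflTransGen.refl
  · rintro ⟨Z, hZ, hdis⟩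
    refine ⟨Subtype.val '' Z, hZ.image Subtype.val_injective.injOn, ?_⟩
    rintro _ ⟨a, ha, rfl⟩ _ ⟨b, hb, rfl⟩ c hc ⟨h1, h2⟩
    obtain ⟨c', hc', X, hX, hX1, hX2⟩ := hcut c hc
    refine hdis a ha b hb c' hc' ?_
    have key : ∀ (g : BB A G p k) (U : Set W) (U' : Set (Kp A G p k)),
        (∀ y : Kp A G p k, (y : W) ∈ U → (y : W) ∉ X → y ∈ U') → Inn p (g : A) U →
          Inn (p.comap Subtype.val_injective hrange) g U' := by
      intro g U U' hU hg
      unfold Inn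
      rw [Ultrafilter.mem_comap]
      have h3 : {x | (g : A) • x ∈ X} ∉ p := not_inn_finite h hX
      have h4 : {x | (g : A) • x ∈ X}ᶜ ∈ p := Ultrafilter.compl_mem_iff_notMem.2 h3
      refine Filter.mem_of_superset (Filter.inter_mem (Filter.inter_mem hg h4) hKp) ?_
      rintro x ⟨⟨hx1, hx2⟩, hx3⟩
      refine ⟨⟨x, hx3⟩, ?_, rfl⟩
      exact hU (g • (⟨x, hx3⟩ : Kp A G p k)) hx1 hx2
    exact ⟨key a _ _ hX1 h1, key b _ _ hX2 h2⟩

end Pool.Agent.Helper39.BT
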